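import Mathlib
import Pool.Agent.H95.VG.Targets1

/-!
# VG: integrability on `Oa` by domination with the sum of minors
-/

open MeasureTheory Set Filter Topology
open scoped ENNReal NNReal ContDiff ComplexConjugate

namespace Pool.Agent.H27.VG

open Pool.Agent.H95.VG

variable {n : ℕ} {X : Type} [TopologicalSpace X] {ι : Type}

/-- domination: continuous on `Oa`, supported in `K`, bounded by a multiple of the minors -/
theorem dom_int {E : Type*} [NormedAddCommGroup E] [SecondCountableTopologyEither (V n) E]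
    (A : Atl n X ι) (f : V n → X) (I : Set (V n))
    (hS : Sing A f I) (a : ι) (hO : IsOpen (Oa A f I a))
    (hO2 : Oa A f I a ⊆ (Dp n \ I) ∩ Cb A f a 2)
    (K : Set (V n)) (hK : K ⊆ Dp n) (hKc : IsCompact K) (g : V n → E)
    (hg : ContinuousOn g (Oa A f I a)) (C : ℝ)
    (hb : ∀ z ∈ Oa A f I a, z ∈ K → ‖g z‖ ≤ C * Dm (FF A f a) z)
    (hz : ∀ z ∈ Oa A f I a, z ∉ K → g z = 0) :
    IntegrableOn g (Oa A f I a) := by
  have hm : AEStronglyMeasurable g (volume.restrict (Oa A f I a)) :=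
    hg.aestronglyMeasurable hO.measurableSet
  refine ⟨hm, ?_⟩
  have hs1 := hS.s1 K hK hKc a
  have h1 : ∫⁻ z in Oa A f I a, ‖g z‖ₑ
      ≤ ∫⁻ z in Oa A f I a, K.indicator
        (fun z => ENNReal.ofReal |C| * ENNReal.ofReal (Dm (FF A f a) z)) z := by
    refine setLIntegral_mono_ae' hO.measurableSet (Eventually.of_forall fun z hz' => ?_)
    by_cases hzK : z ∈ K
    · rw [indicator_of_mem hzK, ← ENNReal.ofReal_mul (abs_nonneg _), ← ofReal_norm]
      refine ENNReal.ofReal_le_ofReal ((hb z hz' hzK).trans ?_)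
      refine mul_le_mul_of_nonneg_right (le_abs_self _) ?_
      exact Finset.sum_nonneg fun _ _ => sq_nonneg _
    · rw [indicator_of_notMem hzK, hz z hz' hzK, enorm_zero]
  have h2 : ∫⁻ z in Oa A f I a, K.indicator
        (fun z => ENNReal.ofReal |C| * ENNReal.ofReal (Dm (FF A f a) z)) z
      = ∫⁻ z in K ∩ Oa A f I a, ENNReal.ofReal |C| * ENNReal.ofReal (Dm (FF A f a) z) := by
    rw [lintegral_indicator hKc.isClosed.measurableSet,
      Measure.restrict_restrict hKc.isClosed.measurableSet]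
  have h3 : ∫⁻ z in K ∩ Oa A f I a, ENNReal.ofReal |C| * ENNReal.ofReal (Dm (FF A f a) z)
      ≤ ∫⁻ z in (K \ I) ∩ Cb A f a 2, ENNReal.ofReal |C| * ENNReal.ofReal (Dm (FF A f a) z) := by
    refine lintegral_mono_set fun z hz' => ?_
    exact ⟨⟨hz'.1, (hO2 hz'.2).1.2⟩, (hO2 hz'.2).2⟩
  have h4 : ∫⁻ z in (K \ I) ∩ Cb A f a 2,
      ENNReal.ofReal |C| * ENNReal.ofReal (Dm (FF A f a) z) < ⊤ := by
    rw [lintegral_const_mul' _ _ ENNReal.ofReal_ne_top]
    exact ENNReal.mul_lt_top ENNReal.ofReal_lt_top hs1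
  show ∫⁻ z in Oa A f I a, ‖g z‖ₑ < ⊤
  exact (h1.trans (h2.le.trans h3)).trans_lt h4

end Pool.Agent.H27.VG
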