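import Mathlib
import Pool.Agent.H95.VG.Targets1
import Pool.Agent.H27.VG.Base

/-!
# VG: elementary facts on `dz`, `dzb`, `dr`, and the determinant
-/

open MeasureTheory Set Filter Topology
open scoped ENNReal NNReal ContDiff ComplexConjugate

namespace Pool.Agent.H27.VG

open Pool.Agent.H95.VG

variable {n : ℕ} {X : Type} [TopologicalSpace X] {ι : Type}

theorem dz_congr {g h : V n → ℂ} {z : V n} (e : g =ᶠ[𝓝 z] h) (v : V n) : dz g z v = dz h z v := by
  unfold dz; rw [e.fderiv_eq]

theorem dzb_congr {g h : V n → ℂ} {z : V n} (e : g =ᶠ[𝓝 z] h) (v : V n) :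
    dzb g z v = dzb h z v := by
  unfold dzb; rw [e.fderiv_eq]

theorem dr_congr {g h : V n → ℝ} {z : V n} (e : g =ᶠ[𝓝 z] h) (v : V n) :
    dr g z v = dr h z v := by
  unfold dr; rw [e.fderiv_eq]

theorem norm_I_smul (v : V n) : ‖Complex.I • v‖ = ‖v‖ := by
  rw [norm_smul, Complex.norm_I, one_mul]

theorem half_bound (p q : ℂ) (B : ℝ) (hp : ‖p‖ ≤ B) (hq : ‖q‖ ≤ B) :
    ‖(p - Complex.I * q) / 2‖ ≤ B ∧ ‖(p + Complex.I * q) / 2‖ ≤ B := by
  have h2 : ‖Complex.I * q‖ ≤ B := by rw [norm_mul, Complex.norm_I, one_mul]; exact hq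
  constructor
  · rw [norm_div]
    have := norm_sub_le p (Complex.I * q)
    have h3 : ‖(2 : ℂ)‖ = 2 := by simp
    rw [h3, div_le_iff₀ (by norm_num)]
    linarith
  · rw [norm_div]
    have := norm_add_le p (Complex.I * q)
    have h3 : ‖(2 : ℂ)‖ = 2 := by simp
    rw [h3, div_le_iff₀ (by norm_num)]
    linarith

theorem norm_dz_le (g : V n → ℂ) (z v : V n) : ‖dz g z v‖ ≤ ‖fderiv ℝ g z‖ * ‖v‖ := by
  unfold dz
  refine (half_bound _ _ _ ((fderiv ℝ g z).le_opNorm v) ?_).1
  have := (fderiv ℝ g z).le_opNorm (Complex.I • v)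
  rwa [norm_I_smul] at this

theorem norm_dzb_le (g : V n → ℂ) (z v : V n) : ‖dzb g z v‖ ≤ ‖fderiv ℝ g z‖ * ‖v‖ := by
  unfold dzb
  refine (half_bound _ _ _ ((fderiv ℝ g z).le_opNorm v) ?_).2
  have := (fderiv ℝ g z).le_opNorm (Complex.I • v)
  rwa [norm_I_smul] at this

theorem norm_dr_le (g : V n → ℝ) (z v : V n) : ‖dr g z v‖ ≤ ‖fderiv ℝ g z‖ * ‖v‖ := by
  unfold dr
  refine (half_bound _ _ _ ?_ ?_).1
  · rw [Complex.norm_real]; exact (fderiv ℝ g z).le_opNorm v
  · rw [Complex.norm_real]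
    have := (fderiv ℝ g z).le_opNorm (Complex.I • v)
    rwa [norm_I_smul] at this

theorem ek_norm_le (k : Fin n) : ‖(ek k : V n)‖ ≤ 1 := by
  unfold ek
  rw [pi_norm_le_iff_of_nonneg zero_le_one]
  intro i
  by_cases h : i = k
  · subst h; simp
  · simp [Pi.single_eq_of_ne h]

/-- `dz g` along continuous data is continuous -/
theorem cont_dz {S : Set (V n)} (g : V n → ℂ) (hg : ContDiff ℝ 1 g) (Y W : V n → V n)
    (hY : ContinuousOn Y S) (hW : ContinuousOn W S) :
    ContinuousOn (fun z => dz g (Y z) (W z)) S := by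
  have h1 : Continuous (fderiv ℝ g) := hg.continuous_fderiv (by norm_num)
  unfold dz
  have h2 : ContinuousOn (fun z => fderiv ℝ g (Y z)) S := h1.comp_continuousOn hY
  have h3 : ContinuousOn (fun z => fderiv ℝ g (Y z) (W z)) S := h2.clm_apply hW
  have h4 : ContinuousOn (fun z => fderiv ℝ g (Y z) (Complex.I • W z)) S :=
    h2.clm_apply (hW.const_smul Complex.I)
  exact (h3.sub (continuousOn_const.mul h4)).div_const _

theorem cont_dzb {S : Set (V n)} (g : V n → ℂ) (hg : ContDiff ℝ 1 g) (Y W : V n → V n)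
    (hY : ContinuousOn Y S) (hW : ContinuousOn W S) :
    ContinuousOn (fun z => dzb g (Y z) (W z)) S := by
  have h1 : Continuous (fderiv ℝ g) := hg.continuous_fderiv (by norm_num)
  unfold dzb
  have h2 : ContinuousOn (fun z => fderiv ℝ g (Y z)) S := h1.comp_continuousOn hY
  have h3 : ContinuousOn (fun z => fderiv ℝ g (Y z) (W z)) S := h2.clm_apply hW
  have h4 : ContinuousOn (fun z => fderiv ℝ g (Y z) (Complex.I • W z)) S :=
    h2.clm_apply (hW.const_smul Complex.I)
  exact (h3.add (continuousOn_const.mul h4)).div_const _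

/-- a function depending on a locally constant parameter is continuous if it is so for fixed
parameters -/
theorem cont_param {Z E : Type*} [TopologicalSpace Z] [TopologicalSpace E] {S : Set Z}
    (hS : IsOpen S) (σ : Z → ℝ)
    (hσ : ∀ z ∈ S, ∀ᶠ z' in 𝓝 z, σ z' = σ z) (g : ℝ → Z → E)
    (hg : ∀ s, ContinuousOn (g s) S) : ContinuousOn (fun z => g (σ z) z) S := by
  intro z hz
  have h1 : ContinuousAt (g (σ z)) z := (hg (σ z)).continuousAt (hS.mem_nhds hz)
  refine ContinuousAt.continuousWithinAt ?_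
  refine h1.congr ?_
  filter_upwards [hσ z hz] with z' hz'
  rw [hz']

/-- derivatives vanish outside closed sets containing the support -/
theorem fderiv_zero_of_supp {E F : Type*} [NormedAddCommGroup E] [NormedSpace ℝ E]
    [NormedAddCommGroup F] [NormedSpace ℝ F] (g : E → F) (C : Set E) (hC : IsClosed C)
    (h : ∀ y, g y ≠ 0 → y ∈ C) (y : E) (hy : y ∉ C) : fderiv ℝ g y = 0 := by
  have h1 : g =ᶠ[𝓝 y] fun _ => 0 := by
    filter_upwards [hC.isOpen_compl.mem_nhds hy] with y' hy'
    by_contra h0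
    exact hy' (h y' h0)
  rw [h1.fderiv_eq]
  simp

theorem prod_hol {J : Type*} (O : Set (V n)) (u : Finset J) (g : J → V n → ℂ)
    (h : ∀ i, DifferentiableOn ℂ (g i) O) : DifferentiableOn ℂ (fun z => ∏ i ∈ u, g i z) O := by
  classical
  induction u using Finset.induction_on with
  | empty => simpa using differentiableOn_const (1 : ℂ)
  | insert a u ha ih =>
    simp_rw [Finset.prod_insert ha]
    exact (h a).mul ih

/-- the determinant of the Jacobian of a holomorphic map is holomorphic -/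
theorem det_hol (h1 : T_SMO) (O : Set (V n)) (Y : V n → V n) (hO : IsOpen O)
    (hY : DifferentiableOn ℂ Y O) : DifferentiableOn ℂ (fun z => (jac Y z).det) O := by
  have h2 := (h1 n (V n) O Y hO hY).2.2
  have h3 : ∀ i j, DifferentiableOn ℂ (fun z => jac Y z i j) O := by
    intro i j
    have h4 := h2 (ek j)
    exact (differentiableOn_pi.1 h4) i
  simp_rw [Matrix.det_apply]
  refine DifferentiableOn.fun_sum fun σ _ => ?_
  have h5 : DifferentiableOn ℂ (fun z => ∏ i, jac Y z (σ i) i) O :=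
    prod_hol O Finset.univ (fun i z => jac Y z (σ i) i) fun i => h3 (σ i) i
  exact h5.const_smul _

end Pool.Agent.H27.VG
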