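import Mathlib
import Pool.Agent.H95.VG.Targets1
import Pool.Agent.H27.VG.Base
import Pool.Agent.H27.VG.Base2

/-!
# VG: signed and complex versions of the area formula with multiplicities
-/

open MeasureTheory Set Filter Topology
open scoped ENNReal NNReal ContDiff ComplexConjugate

namespace Pool.Agent.H27.VG

open Pool.Agent.H95.VG

variable {n : ℕ}

/-- the fibre -/
abbrev Fb (S : Set (V n)) (Y : V n → V n) (y : V n) : Type :=
  {z // z ∈ S ∧ Y z = y ∧ (jac Y z).det ≠ 0}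

theorem norm_summable_of_enorm {E J : Type*} [NormedAddCommGroup E] (g : J → E)
    (h : ∑' j, ‖g j‖ₑ ≠ ⊤) : Summable (fun j => ‖g j‖) := by
  have := ENNReal.summable_toReal h
  simpa [toReal_enorm] using this

theorem real_split {J : Type*} (g : J → ℝ) (h : ∑' j, ‖g j‖ₑ ≠ ⊤) :
    Summable g ∧ ∑' j, g j = (∑' j, ENNReal.ofReal (g j)).toReal
      - (∑' j, ENNReal.ofReal (-g j)).toReal := by
  have hs : Summable (fun j => ‖g j‖) := norm_summable_of_enorm g h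
  have hsg : Summable g := hs.of_norm
  have hle : ∀ j, ENNReal.ofReal (g j) ≤ ‖g j‖ₑ := by
    intro j; rw [← ofReal_norm]; exact ENNReal.ofReal_le_ofReal (le_abs_self _)
  have hle' : ∀ j, ENNReal.ofReal (-g j) ≤ ‖g j‖ₑ := by
    intro j; rw [← ofReal_norm]; exact ENNReal.ofReal_le_ofReal (neg_le_abs _)
  have h1 : ∑' j, ENNReal.ofReal (g j) ≠ ⊤ := ne_top_of_le_ne_top h (ENNReal.tsum_le_tsum hle)
  have h2 : ∑' j, ENNReal.ofReal (-g j) ≠ ⊤ := ne_top_of_le_ne_top h (ENNReal.tsum_le_tsum hle')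
  refine ⟨hsg, ?_⟩
  rw [ENNReal.tsum_toReal_eq (fun _ => ENNReal.ofReal_ne_top),
    ENNReal.tsum_toReal_eq (fun _ => ENNReal.ofReal_ne_top),
    ← (ENNReal.summable_toReal h1).tsum_sub (ENNReal.summable_toReal h2)]
  refine tsum_congr fun j => ?_
  rw [ENNReal.toReal_ofReal', ENNReal.toReal_ofReal']
  rcases le_total 0 (g j) with h0 | h0
  · rw [max_eq_left h0, max_eq_right (by linarith), sub_zero]
  · rw [max_eq_right h0, max_eq_left (by linarith)]; ring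

theorem are_real (hA : T_ARE) (O S : Set (V n)) (Y : V n → V n) (hO : IsOpen O)
    (hY : DifferentiableOn ℂ Y O) (hS : MeasurableSet S) (hSO : S ⊆ O)
    (hdet : ContinuousOn (fun z => (jac Y z).det) O) (g : V n → ℝ) (hg : Measurable g)
    (hfin : ∫⁻ z in S, ‖g z‖ₑ * ENNReal.ofReal (‖(jac Y z).det‖ ^ 2) < ⊤) :
    (∀ᵐ y, ∑' z : Fb S Y y, ‖g z.1‖ₑ ≠ ⊤) ∧
    Integrable (fun y => ∑' z : Fb S Y y, g z.1) ∧
    ∫ y, ∑' z : Fb S Y y, g z.1 = ∫ z in S, g z * ‖(jac Y z).det‖ ^ 2 := by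
  obtain ⟨mQ, eQ, -⟩ := hA n O S Y (fun z => ‖g z‖ₑ) hO hY hS hSO hg.enorm
  obtain ⟨mP, eP, -⟩ := hA n O S Y (fun z => ENNReal.ofReal (g z)) hO hY hS hSO hg.ennreal_ofReal
  obtain ⟨mN, eN, -⟩ := hA n O S Y (fun z => ENNReal.ofReal (-g z)) hO hY hS hSO
    hg.neg.ennreal_ofReal
  have hQ : ∫⁻ y, ∑' z : Fb S Y y, ‖g z.1‖ₑ ≠ ⊤ := by rw [← eQ]; exact hfin.ne
  have ae1 : ∀ᵐ y, ∑' z : Fb S Y y, ‖g z.1‖ₑ ≠ ⊤ := by
    filter_upwards [ae_lt_top mQ hQ] with y hy using hy.ne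
  have hP : ∫⁻ y, ∑' z : Fb S Y y, ENNReal.ofReal (g z.1) ≠ ⊤ := by
    refine ne_top_of_le_ne_top hQ (lintegral_mono fun y => ENNReal.tsum_le_tsum fun z => ?_)
    rw [← ofReal_norm]; exact ENNReal.ofReal_le_ofReal (le_abs_self _)
  have hN : ∫⁻ y, ∑' z : Fb S Y y, ENNReal.ofReal (-g z.1) ≠ ⊤ := by
    refine ne_top_of_le_ne_top hQ (lintegral_mono fun y => ENNReal.tsum_le_tsum fun z => ?_)
    rw [← ofReal_norm]; exact ENNReal.ofReal_le_ofReal (neg_le_abs _)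
  have iP := integrable_toReal_of_lintegral_ne_top mP.aemeasurable hP
  have iN := integrable_toReal_of_lintegral_ne_top mN.aemeasurable hN
  have ae2 : (fun y => ∑' z : Fb S Y y, g z.1) =ᵐ[volume] fun y =>
      (∑' z : Fb S Y y, ENNReal.ofReal (g z.1)).toReal
        - (∑' z : Fb S Y y, ENNReal.ofReal (-g z.1)).toReal := by
    filter_upwards [ae1] with y hy
    exact (real_split _ hy).2
  have hint : Integrable (fun y => ∑' z : Fb S Y y, g z.1) := (iP.sub iN).congr ae2.symm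
  refine ⟨ae1, hint, ?_⟩
  rw [integral_congr_ae ae2, integral_sub iP iN,
    integral_toReal mP.aemeasurable (ae_lt_top mP hP),
    integral_toReal mN.aemeasurable (ae_lt_top mN hN), ← eP, ← eN]
  have hms : AEStronglyMeasurable (fun z => g z * ‖(jac Y z).det‖ ^ 2) (volume.restrict S) := by
    refine hg.aestronglyMeasurable.mul ?_
    have : ContinuousOn (fun z => ‖(jac Y z).det‖ ^ 2) O := (hdet.norm.pow 2)
    exact (this.aestronglyMeasurable hO.measurableSet).mono_measure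
      (Measure.restrict_mono hSO le_rfl)
  have hi : Integrable (fun z => g z * ‖(jac Y z).det‖ ^ 2) (volume.restrict S) := by
    refine ⟨hms, ?_⟩
    show ∫⁻ z in S, ‖g z * ‖(jac Y z).det‖ ^ 2‖ₑ < ⊤
    refine lt_of_eq_of_lt ?_ hfin
    refine lintegral_congr fun z => ?_
    rw [enorm_mul]
    congr 1
    rw [← ofReal_norm, Real.norm_of_nonneg (sq_nonneg _)]
  rw [integral_eq_lintegral_pos_part_sub_lintegral_neg_part hi]
  congr 2
  · refine lintegral_congr fun z => ?_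
    rw [ENNReal.ofReal_mul' (sq_nonneg _)]
  · refine lintegral_congr fun z => ?_
    rw [← neg_mul, ENNReal.ofReal_mul' (sq_nonneg _)]

theorem are_cpx (hA : T_ARE) (O S : Set (V n)) (Y : V n → V n) (hO : IsOpen O)
    (hY : DifferentiableOn ℂ Y O) (hS : MeasurableSet S) (hSO : S ⊆ O)
    (hdet : ContinuousOn (fun z => (jac Y z).det) O) (g : V n → ℂ) (hg : Measurable g)
    (hfin : ∫⁻ z in S, ‖g z‖ₑ * ENNReal.ofReal (‖(jac Y z).det‖ ^ 2) < ⊤) :
    (∀ᵐ y, Summable (fun z : Fb S Y y => ‖g z.1‖)) ∧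
    Integrable (fun y => ∑' z : Fb S Y y, g z.1) ∧
    ∫ y, ∑' z : Fb S Y y, g z.1 = ∫ z in S, g z * (‖(jac Y z).det‖ ^ 2 : ℝ) := by
  have hre : ∀ z, ‖(g z).re‖ₑ ≤ ‖g z‖ₑ := by
    intro z; rw [← ofReal_norm, ← ofReal_norm]
    exact ENNReal.ofReal_le_ofReal (Complex.abs_re_le_norm _)
  have him : ∀ z, ‖(g z).im‖ₑ ≤ ‖g z‖ₑ := by
    intro z; rw [← ofReal_norm, ← ofReal_norm]
    exact ENNReal.ofReal_le_ofReal (Complex.abs_im_le_norm _)
  obtain ⟨mQ, eQ, -⟩ := hA n O S Y (fun z => ‖g z‖ₑ) hO hY hS hSO hg.enorm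
  have hQ : ∫⁻ y, ∑' z : Fb S Y y, ‖g z.1‖ₑ ≠ ⊤ := by rw [← eQ]; exact hfin.ne
  have ae1 : ∀ᵐ y, ∑' z : Fb S Y y, ‖g z.1‖ₑ ≠ ⊤ := by
    filter_upwards [ae_lt_top mQ hQ] with y hy using hy.ne
  obtain ⟨-, i1, e1⟩ := are_real hA O S Y hO hY hS hSO hdet (fun z => (g z).re)
    (Complex.measurable_re.comp hg)
    (lt_of_le_of_lt (lintegral_mono fun z => mul_le_mul_left (hre z) _) hfin)
  obtain ⟨-, i2, e2⟩ := are_real hA O S Y hO hY hS hSO hdet (fun z => (g z).im)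
    (Complex.measurable_im.comp hg)
    (lt_of_le_of_lt (lintegral_mono fun z => mul_le_mul_left (him z) _) hfin)
  have ae2 : (fun y => ∑' z : Fb S Y y, g z.1) =ᵐ[volume] fun y =>
      ((∑' z : Fb S Y y, (g z.1).re : ℝ) : ℂ) + ((∑' z : Fb S Y y, (g z.1).im : ℝ) : ℂ)
        * Complex.I := by
    filter_upwards [ae1] with y hy
    have hs : Summable (fun z : Fb S Y y => g z.1) := (norm_summable_of_enorm _ hy).of_norm
    rw [← Complex.re_tsum hs, ← Complex.im_tsum hs, Complex.re_add_im]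
  have i3 : Integrable (fun y => ((∑' z : Fb S Y y, (g z.1).re : ℝ) : ℂ)
      + ((∑' z : Fb S Y y, (g z.1).im : ℝ) : ℂ) * Complex.I) :=
    i1.ofReal.add (i2.ofReal.mul_const _)
  refine ⟨?_, i3.congr ae2.symm, ?_⟩
  · filter_upwards [ae1] with y hy using norm_summable_of_enorm _ hy
  rw [integral_congr_ae ae2, integral_add i1.ofReal (i2.ofReal.mul_const _)]
  rw [integral_mul_const]
  have o1 : ∫ y, ((∑' z : Fb S Y y, (g z.1).re : ℝ) : ℂ)
      = ((∫ z in S, (g z).re * ‖(jac Y z).det‖ ^ 2 : ℝ) : ℂ) := by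
    rw [← e1]; exact integral_ofReal
  have o2 : ∫ y, ((∑' z : Fb S Y y, (g z.1).im : ℝ) : ℂ)
      = ((∫ z in S, (g z).im * ‖(jac Y z).det‖ ^ 2 : ℝ) : ℂ) := by
    rw [← e2]; exact integral_ofReal
  rw [o1, o2]
  have hms : AEStronglyMeasurable (fun z => g z * (‖(jac Y z).det‖ ^ 2 : ℝ))
      (volume.restrict S) := by
    refine hg.aestronglyMeasurable.mul ?_
    have : ContinuousOn (fun z => ((‖(jac Y z).det‖ ^ 2 : ℝ) : ℂ)) O :=
      Complex.continuous_ofReal.comp_continuousOn (hdet.norm.pow 2)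
    exact (this.aestronglyMeasurable hO.measurableSet).mono_measure
      (Measure.restrict_mono hSO le_rfl)
  have hi : Integrable (fun z => g z * (‖(jac Y z).det‖ ^ 2 : ℝ)) (volume.restrict S) := by
    refine ⟨hms, ?_⟩
    show ∫⁻ z in S, ‖g z * (‖(jac Y z).det‖ ^ 2 : ℝ)‖ₑ < ⊤
    refine lt_of_eq_of_lt ?_ hfin
    refine lintegral_congr fun z => ?_
    rw [enorm_mul]
    congr 1
    rw [← ofReal_norm, Complex.norm_real, Real.norm_of_nonneg (sq_nonneg _)]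
  have q1 : (∫ z in S, g z * (‖(jac Y z).det‖ ^ 2 : ℝ)).re
      = ∫ z in S, (g z).re * ‖(jac Y z).det‖ ^ 2 := by
    refine (Complex.reCLM.integral_comp_comm hi).symm.trans ?_
    refine integral_congr_ae (Eventually.of_forall fun z => ?_)
    show (g z * (‖(jac Y z).det‖ ^ 2 : ℝ)).re = _
    rw [Complex.re_mul_ofReal]
  have q2 : (∫ z in S, g z * (‖(jac Y z).det‖ ^ 2 : ℝ)).im
      = ∫ z in S, (g z).im * ‖(jac Y z).det‖ ^ 2 := by
    refine (Complex.imCLM.integral_comp_comm hi).symm.trans ?_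
    refine integral_congr_ae (Eventually.of_forall fun z => ?_)
    show (g z * (‖(jac Y z).det‖ ^ 2 : ℝ)).im = _
    rw [Complex.im_mul_ofReal]
  rw [← q1, ← q2, Complex.re_add_im]

end Pool.Agent.H27.VG
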