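import Mathlib
import Pool.Agent.H95.VG.Targets1
import Pool.Agent.H27.VG.Base
import Pool.Agent.H27.VG.Base2

/-!
# VG: module FO, first order identity in push forward form
-/

open MeasureTheory Set Filter Topology
open scoped ENNReal NNReal ContDiff ComplexConjugate

namespace Pool.Agent.H27.VG

open Pool.Agent.H95.VG

theorem mul_sqrt_bound (a b C D : ℝ) (x y : ℝ) (ha : |a| ≤ C) (hb : |b| ≤ D) (hC : 0 ≤ C)
    (hD : 0 ≤ D) (M : ℝ) (hx0 : 0 ≤ x) (hy0 : 0 ≤ y) (hx : x ^ 2 ≤ M) (hy : y ^ 2 ≤ M) :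
    |a| * |b| * (x * y) ≤ C * D * M := by
  have h1 : x * y ≤ M := by nlinarith [sq_nonneg (x - y)]
  have h2 : |a| * |b| ≤ C * D := mul_le_mul ha hb (abs_nonneg _) hC
  have h3 : 0 ≤ x * y := mul_nonneg hx0 hy0
  exact mul_le_mul h2 h1 h3 (mul_nonneg hC hD)

theorem fo (h1 : T_LIN) (h2 : T_PRD) (h3 : T_CHR) (h4 : T_DOM) (h5 : T_OAO) (h6 : T_SFO)
    (h7 : T_SMO) (h8 : T_PIO) : T_FO := by
  intro n X _ _ ι A f I hS a k φ b q σ R hR hφ hφc hφs hb hσ hq hqs hqb
  obtain ⟨C, hC⟩ := hqb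
  obtain ⟨hO, hF, -, hR2, hO2, -⟩ := h5 n X ι A f I hS a
  obtain ⟨F, hFe⟩ : ∃ F : V n → V n, F = FF A f a := ⟨_, rfl⟩
  rw [← hFe] at hF ⊢
  have hX : DifferentiableOn ℂ (cf F k) (Oa A f I a) := (h8 n _ F hO hF k).1
  have hdet : DifferentiableOn ℂ (fun z => (jac F z).det) (Oa A f I a) :=
    det_hol h7 _ F hO hF
  have hFr : ContDiffOn ℝ ∞ F (Oa A f I a) := (h7 n (V n) _ F hO hF).2.1
  have hODp : Oa A f I a ⊆ Dp n := fun z hz => (hO2 hz).1.1
  have hmixF : mix (fun i => Sum.inr i) F = F := rfl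
  obtain ⟨K, hKe⟩ : ∃ K, K = tsupport φ := ⟨_, rfl⟩
  have hK : K ⊆ Dp n := hKe ▸ hφs
  have hKc : IsCompact K := hKe ▸ hφc
  -- bounds
  obtain ⟨Bφ, hBφ⟩ := hφ.continuous.bounded_above_of_compact_support hφc
  have hdφc : Continuous (fderiv ℝ φ) := hφ.continuous_fderiv (by norm_num)
  obtain ⟨Bd, hBd⟩ := hdφc.bounded_above_of_compact_support (hφc.fderiv ℝ)
  obtain ⟨Bb, hBb⟩ := hKc.exists_bound_of_continuousOn (hb.continuousOn.mono hK)
  have hqdiff : ∀ s, Differentiable ℝ (fun y => q y s) := fun s => (hq s).differentiable (by norm_num)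
  have hCpos : 0 ≤ C := (norm_nonneg _).trans (hC 0 0).1
  have hBφ0 : 0 ≤ Bφ := (norm_nonneg _).trans (hBφ 0)
  have hBd0 : 0 ≤ Bd := (norm_nonneg _).trans (hBd 0)
  have hφK : ∀ z, z ∉ K → φ z = 0 := by
    intro z hz; rw [hKe] at hz; exact image_eq_zero_of_notMem_tsupport hz
  have hdφK : ∀ z, z ∉ K → fderiv ℝ φ z = 0 := by
    intro z hz
    have : z ∉ tsupport (fderiv ℝ φ) := fun h => hz (hKe ▸ tsupport_fderiv_subset ℝ h)
    exact image_eq_zero_of_notMem_tsupport this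
  have hDm : ∀ z ∈ Oa A f I a, ‖(jac F z).det‖ ^ 2 ≤ Dm F z ∧
      ∀ i, ‖cf F k z i‖ ^ 2 ≤ Dm F z := by
    intro z hz
    have := h4 n F z (hF.differentiableAt (hO.mem_nhds hz))
    exact ⟨this.2.1, fun i => this.2.2.2.2.1 k i⟩
  have hDm0 : ∀ z, 0 ≤ Dm F z := fun z => Finset.sum_nonneg fun _ _ => sq_nonneg _
  have hXn : ∀ z ∈ Oa A f I a, ‖cf F k z‖ ^ 2 ≤ Dm F z := by
    intro z hz
    have h := (hDm z hz).2
    have h' : ‖cf F k z‖ ≤ Real.sqrt (Dm F z) := by
      rw [pi_norm_le_iff_of_nonneg (Real.sqrt_nonneg _)]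
      intro i
      exact Real.le_sqrt_of_sq_le (h i)
    calc ‖cf F k z‖ ^ 2 ≤ (Real.sqrt (Dm F z)) ^ 2 := by gcongr
      _ = Dm F z := Real.sq_sqrt (hDm0 z)
  -- continuity
  have cF : ContinuousOn F (Oa A f I a) := hF.continuousOn
  have cX : ContinuousOn (cf F k) (Oa A f I a) := hX.continuousOn
  have cdet : ContinuousOn (fun z => (jac F z).det) (Oa A f I a) := hdet.continuousOn
  have cb : ContinuousOn b (Oa A f I a) := hb.continuousOn.mono hODp
  have cφ : ContinuousOn φ (Oa A f I a) := hφ.continuous.continuousOn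
  have cq : ContinuousOn (fun z => q (F z) (σ z)) (Oa A f I a) :=
    cont_param hO σ hσ (fun s z => q (F z) s) fun s =>
      (hq s).continuous.comp_continuousOn cF
  have cdq : ContinuousOn (fun z => dzb (fun y => q y (σ z)) (F z) (ek k)) (Oa A f I a) :=
    cont_param hO σ hσ (fun s z => dzb (fun y => q y s) (F z) (ek k)) fun s =>
      cont_dzb (fun y => q y s) (hq s) F (fun _ => ek k) cF continuousOn_const
  have cdφ : ContinuousOn (fun z => dzb φ z (cf F k z)) (Oa A f I a) :=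
    cont_dzb φ hφ (fun z => z) (cf F k) continuousOn_id cX
  -- integrability
  have int1 : IntegrableOn (fun z => φ z * b z * (‖(jac F z).det‖ ^ 2 : ℝ) *
      dzb (fun y => q y (σ z)) (F z) (ek k)) (Oa A f I a) := by
    have hc : ContinuousOn (fun z => φ z * b z * (‖(jac F z).det‖ ^ 2 : ℝ) *
      dzb (fun y => q y (σ z)) (F z) (ek k)) (Oa A f I a) := by
      have h : ContinuousOn (fun z => ((‖(jac F z).det‖ ^ 2 : ℝ) : ℂ)) (Oa A f I a) :=
        Complex.continuous_ofReal.comp_continuousOn (cdet.norm.pow 2)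
      exact ((cφ.mul cb).mul h).mul cdq
    refine dom_int A f I hS a hO hO2 K hK hKc _ hc (Bφ * Bb * C) ?_ ?_
    · intro z hz hzK
      rw [← hFe]
      rw [norm_mul, norm_mul, norm_mul, Complex.norm_real, Real.norm_eq_abs,
        abs_of_nonneg (sq_nonneg _)]
      have e1 := hBφ z
      have e2 := hBb z hzK
      have e3 := (hDm z hz).1
      have e4 : ‖dzb (fun y => q y (σ z)) (F z) (ek k)‖ ≤ C := by
        refine (norm_dzb_le _ _ _).trans ?_
        calc ‖fderiv ℝ (fun y => q y (σ z)) (F z)‖ * ‖(ek k : V n)‖ ≤ C * 1 :=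
              mul_le_mul (hC _ _).2 (ek_norm_le k) (norm_nonneg _) hCpos
          _ = C := mul_one C
      have hBb0 : 0 ≤ Bb := (norm_nonneg _).trans e2
      calc ‖φ z‖ * ‖b z‖ * ‖(jac F z).det‖ ^ 2 * ‖dzb (fun y => q y (σ z)) (F z) (ek k)‖
          ≤ Bφ * Bb * Dm F z * C := by gcongr; exact mul_nonneg (mul_nonneg hBφ0 hBb0) (hDm0 z)
        _ = Bφ * Bb * C * Dm F z := by ring
    · intro z hz hzK
      rw [hφK z hzK]; simp
  have int2 : IntegrableOn (fun z => q (F z) (σ z) * b z * (jac F z).det *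
      dzb φ z (cf F k z)) (Oa A f I a) := by
    have hc : ContinuousOn (fun z => q (F z) (σ z) * b z * (jac F z).det *
      dzb φ z (cf F k z)) (Oa A f I a) := ((cq.mul cb).mul cdet).mul cdφ
    refine dom_int A f I hS a hO hO2 K hK hKc _ hc (C * Bb * Bd) ?_ ?_
    · intro z hz hzK
      rw [← hFe]
      rw [norm_mul, norm_mul, norm_mul]
      have e1 := (hC (F z) (σ z)).1
      have e2 := hBb z hzK
      have e3 := (hDm z hz).1
      have e4 : ‖dzb φ z (cf F k z)‖ ≤ Bd * ‖cf F k z‖ := by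
        refine (norm_dzb_le _ _ _).trans ?_
        exact mul_le_mul_of_nonneg_right (hBd z) (norm_nonneg _)
      have e5 := hXn z hz
      have hBb0 : 0 ≤ Bb := (norm_nonneg _).trans e2
      have e6 : ‖(jac F z).det‖ * ‖cf F k z‖ ≤ Dm F z := by
        nlinarith [sq_nonneg (‖(jac F z).det‖ - ‖cf F k z‖), norm_nonneg (jac F z).det,
          norm_nonneg (cf F k z)]
      calc ‖q (F z) (σ z)‖ * ‖b z‖ * ‖(jac F z).det‖ * ‖dzb φ z (cf F k z)‖
          ≤ C * Bb * ‖(jac F z).det‖ * (Bd * ‖cf F k z‖) := by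
            gcongr
        _ = C * Bb * Bd * (‖(jac F z).det‖ * ‖cf F k z‖) := by ring
        _ ≤ C * Bb * Bd * Dm F z := by
            gcongr
    · intro z hz hzK
      have : dzb φ z (cf F k z) = 0 := by
        unfold dzb; rw [hdφK z hzK]; simp
      rw [this, mul_zero]
  -- the pointwise formula
  have hpt : ∀ z ∈ Oa A f I a, (b z * (jac F z).det) *
      dzb (fun z => φ z * q (F z) (σ z)) z (cf (mix (fun i => Sum.inr i) F) k z)
      = q (F z) (σ z) * b z * (jac F z).det * dzb φ z (cf F k z) +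
        φ z * b z * (‖(jac F z).det‖ ^ 2 : ℝ) * dzb (fun y => q y (σ z)) (F z) (ek k) := by
    intro z hz
    rw [hmixF]
    have e1 : (fun z' => φ z' * q (F z') (σ z')) =ᶠ[𝓝 z] fun z' => φ z' * q (F z') (σ z) := by
      filter_upwards [hσ z hz] with z' hz'
      rw [hz']
    rw [dzb_congr e1]
    have dF : DifferentiableAt ℝ F z := (hF.differentiableAt (hO.mem_nhds hz)).restrictScalars ℝ
    have dφ : DifferentiableAt ℝ φ z := hφ.differentiable (by norm_num) z
    have dq : DifferentiableAt ℝ (fun z' => q (F z') (σ z)) z :=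
      DifferentiableAt.comp z (g := fun y => q y (σ z)) (hqdiff (σ z) (F z)) dF
    have e2 := ((h2 n z (cf F k z)).1 φ (fun z' => q (F z') (σ z)) dφ dq).2
    rw [e2]
    have e3 := ((h3 n _ F hO hF z hz k).2.1 (fun y => q y (σ z)) (hqdiff (σ z) (F z))).2
    rw [e3]
    have e4 : ((‖(jac F z).det‖ ^ 2 : ℝ) : ℂ) = (jac F z).det * conj (jac F z).det := by
      rw [Complex.mul_conj, Complex.normSq_eq_norm_sq]
    rw [e4]
    ring
  -- SFO
  have key := h6 n X ι A f I hS a (fun i => Sum.inr i) k K R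
    (fun z => φ z * q (F z) (σ z)) (fun z => b z * (jac F z).det) hK hKc hR
  rw [← hFe] at key
  have key2 := key ?_ ?_ ?_ ?_ ?_ ?_
  · refine ⟨int1, int2, ?_⟩
    rw [setIntegral_congr_fun hO.measurableSet hpt, integral_add int2 int1] at key2
    rw [eq_neg_iff_add_eq_zero, add_comm]
    exact key2
  · -- C^1
    intro z hz
    have e1 : (fun z' => φ z' * q (F z') (σ z')) =ᶠ[𝓝 z] fun z' => φ z' * q (F z') (σ z) := by
      filter_upwards [hσ z hz] with z' hz'
      rw [hz']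
    have cF1 : ContDiffAt ℝ 1 F z :=
      ((hFr.contDiffAt (hO.mem_nhds hz))).of_le (by norm_num)
    have : ContDiffAt ℝ 1 (fun z' => φ z' * q (F z') (σ z)) z :=
      hφ.contDiffAt.mul (ContDiffAt.comp z (g := fun y => q y (σ z)) (hq (σ z)).contDiffAt cF1)
    exact (this.congr_of_eventuallyEq e1).contDiffWithinAt
  · intro z hz hne
    refine ⟨?_, ?_⟩
    · by_contra h
      exact hne (by rw [hφK z h, zero_mul])
    · have hq0 : q (F z) (σ z) ≠ 0 := fun h => hne (by rw [h, mul_zero])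
      exact ⟨hz.2.1, by have := hqs _ _ hq0; rw [hFe] at this; exact this⟩
  · refine ⟨Bφ * C, fun z _ => ?_⟩
    rw [norm_mul]
    exact mul_le_mul (hBφ z) (hC _ _).1 (norm_nonneg _) hBφ0
  · exact (hb.mono hODp).mul hdet
  · -- finiteness
    have hs1 := hS.s1 K hK hKc a
    have hle : ∫⁻ z in Oa A f I a ∩ (K ∩ Cb A f a R),
        ENNReal.ofReal (‖b z * (jac F z).det‖ ^ 2)
        ≤ ∫⁻ z in Oa A f I a ∩ K, ENNReal.ofReal (‖b z * (jac F z).det‖ ^ 2) :=
      lintegral_mono_set fun z hz => ⟨hz.1, hz.2.1⟩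
    have hle2 : ∫⁻ z in Oa A f I a ∩ K, ENNReal.ofReal (‖b z * (jac F z).det‖ ^ 2)
        ≤ ∫⁻ z in Oa A f I a ∩ K, ENNReal.ofReal (Bb ^ 2) * ENNReal.ofReal (Dm F z) := by
      refine setLIntegral_mono_ae' (hO.measurableSet.inter hKc.isClosed.measurableSet)
        (Eventually.of_forall fun z hz => ?_)
      rw [← ENNReal.ofReal_mul (sq_nonneg _)]
      refine ENNReal.ofReal_le_ofReal ?_
      rw [norm_mul, mul_pow]
      have e2 := hBb z hz.2
      have hBb0 : 0 ≤ Bb := (norm_nonneg _).trans e2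
      have e3 := (hDm z hz.1).1
      gcongr
    have hle3 : ∫⁻ z in Oa A f I a ∩ K, ENNReal.ofReal (Bb ^ 2) * ENNReal.ofReal (Dm F z)
        ≤ ∫⁻ z in (K \ I) ∩ Cb A f a 2, ENNReal.ofReal (Bb ^ 2) * ENNReal.ofReal (Dm F z) :=
      lintegral_mono_set fun z hz => ⟨⟨hz.2, (hO2 hz.1).1.2⟩, (hO2 hz.1).2⟩
    refine (hle.trans (hle2.trans hle3)).trans_lt ?_
    rw [lintegral_const_mul' _ _ ENNReal.ofReal_ne_top]
    exact ENNReal.mul_lt_top ENNReal.ofReal_lt_top (hFe ▸ hs1)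
  · exact (integrableOn_congr_fun hpt hO.measurableSet).2 (int2.add int1)

end Pool.Agent.H27.VG
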