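import Mathlib
import Pool.Agent.H95.VG.Targets1
import Pool.Agent.H95.VG.Targets3
import Pool.Agent.H27.VG.Base
import Pool.Agent.H27.VG.Base2
import Pool.Agent.H27.VG.ARS

/-!
# VG: module PSH, push forward of `dχ`, preparations
-/

open MeasureTheory Set Filter Topology
open scoped ENNReal NNReal ContDiff ComplexConjugate

namespace Pool.Agent.H27.VG

open Pool.Agent.H95.VG

section alg

variable {n : ℕ}

theorem vec_eq_sum (v : V n) : v = ∑ k, v k • (ek k : V n) := by
  funext i
  rw [Finset.sum_apply, Finset.sum_eq_single i]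
  · simp [ek]
  · intro j _ hj; simp [ek, Pi.single_eq_of_ne (Ne.symm hj)]
  · intro h; exact absurd (Finset.mem_univ _) h

/-- the differential in terms of the Jacobian matrix -/
theorem fderiv_eq_mulVec (Y : V n → V n) (z v : V n) : fderiv ℂ Y z v = (jac Y z).mulVec v := by
  conv_lhs => rw [vec_eq_sum v, map_sum]
  funext i
  rw [Finset.sum_apply]
  simp only [Matrix.mulVec, dotProduct, jac, Matrix.of_apply, map_smul, Pi.smul_apply, smul_eq_mul]
  exact Finset.sum_congr rfl fun j _ => mul_comm _ _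

/-- inverse of the differential, matrix version -/
noncomputable def Mi (Y : V n → V n) (z : V n) : V n →L[ℂ] V n :=
  LinearMap.toContinuousLinearMap (Matrix.mulVecLin (jac Y z)⁻¹)

theorem Mi_apply (Y : V n → V n) (z v : V n) : Mi Y z v = ((jac Y z)⁻¹).mulVec v := rfl

theorem Mi_ek (Y : V n → V n) (z : V n) (k : Fin n) :
    Mi Y z (ek k) = ((jac Y z).det)⁻¹ • cf Y k z := by
  funext i
  rw [Mi_apply, ek, Matrix.mulVec_single_one, Matrix.inv_def, Ring.inverse_eq_inv']
  simp [cf, Matrix.col, Matrix.transpose]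

theorem clm_eq_sum (L : V n →L[ℂ] V n) :
    L = ∑ k, (ContinuousLinearMap.proj (R := ℂ) (φ := fun _ : Fin n => ℂ) k).smulRight
      (L (ek k)) := by
  ext1 v
  conv_lhs => rw [vec_eq_sum v, map_sum]
  rw [sum_apply]
  refine Finset.sum_congr rfl fun k _ => ?_
  rw [map_smul]
  simp

theorem Mi_cont (Y : V n → V n) (S : Set (V n)) (hdet : ContinuousOn (fun z => (jac Y z).det) S)
    (h0 : ∀ z ∈ S, (jac Y z).det ≠ 0) (hcf : ∀ k, ContinuousOn (cf Y k) S) :
    ContinuousOn (Mi Y) S := by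
  have h1 : Mi Y = fun z => ∑ k,
      (ContinuousLinearMap.proj (R := ℂ) (φ := fun _ : Fin n => ℂ) k).smulRight
        (((jac Y z).det)⁻¹ • cf Y k z) := by
    funext z
    rw [clm_eq_sum (Mi Y z)]
    exact Finset.sum_congr rfl fun k _ => by rw [Mi_ek]
  rw [h1]
  refine continuousOn_finsetSum _ fun k _ => ?_
  have h2 : ContinuousOn (fun z => ((jac Y z).det)⁻¹ • cf Y k z) S :=
    (hdet.inv₀ h0).smul (hcf k)
  exact ((ContinuousLinearMap.smulRightL ℂ (V n) (V n)
    (ContinuousLinearMap.proj (R := ℂ) (φ := fun _ : Fin n => ℂ) k)).continuous.comp_continuousOn h2)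

theorem Mi_norm (Y : V n → V n) (z : V n) (D : ℝ) (hD : ∀ k, ‖cf Y k z‖ ≤ D) :
    ‖Mi Y z‖ ≤ ‖(jac Y z).det‖⁻¹ * (n * D) := by
  have hD0 : 0 ≤ (n : ℝ) * D := by
    rcases Nat.eq_zero_or_pos n with h | h
    · subst h; simp
    · exact mul_nonneg (Nat.cast_nonneg _) ((norm_nonneg _).trans (hD ⟨0, h⟩))
  refine ContinuousLinearMap.opNorm_le_bound _ (mul_nonneg (by positivity) hD0) fun v => ?_
  have h1 : Mi Y z v = ∑ k, v k • (((jac Y z).det)⁻¹ • cf Y k z) := by
    conv_lhs => rw [vec_eq_sum v, map_sum]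
    exact Finset.sum_congr rfl fun k _ => by rw [map_smul, Mi_ek]
  rw [h1]
  refine (norm_sum_le _ _).trans ?_
  have h2 : ∀ k, ‖v k • (((jac Y z).det)⁻¹ • cf Y k z)‖ ≤ ‖v‖ * (‖(jac Y z).det‖⁻¹ * D) := by
    intro k
    rw [norm_smul, norm_smul, norm_inv]
    exact mul_le_mul (norm_le_pi_norm v k) (mul_le_mul_of_nonneg_left (hD k) (by positivity))
      (by positivity) (norm_nonneg _)
  refine (Finset.sum_le_sum fun k _ => h2 k).trans ?_
  rw [Finset.sum_const, Finset.card_univ, Fintype.card_fin, nsmul_eq_mul]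
  apply le_of_eq; ring

/-- `dχ` composed with the inverse of the differential -/
noncomputable def Tz (Y : V n → V n) (z : V n) : V n →L[ℝ] ℝ :=
  (fderiv ℝ chi z).comp ((Mi Y z).restrictScalars ℝ)

theorem Tz_apply (Y : V n → V n) (z v : V n) : Tz Y z v = fderiv ℝ chi z (Mi Y z v) := rfl

theorem dr_smul (h : T_LIN) (g : V n → ℝ) (z v : V n) (c : ℂ) :
    dr g z (c • v) = c * dr g z v := by
  rw [((h n z).2.2.2.2 g (c • v)).1, ((h n z).2.2.2.2 g v).1, Finset.mul_sum]
  refine Finset.sum_congr rfl fun i _ => ?_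
  rw [Pi.smul_apply, smul_eq_mul, mul_assoc]

theorem b10_Tz (h : T_LIN) (Y : V n → V n) (z : V n) (k : Fin n) :
    b10 (Tz Y z) (ek k) = ((jac Y z).det)⁻¹ * dr chi z (cf Y k z) := by
  rw [← dr_smul h, ← Mi_ek]
  unfold b10 dr
  rw [Tz_apply, Tz_apply, map_smul]

end alg

section meas

variable {n : ℕ}

theorem meas_ind {E : Type*} [TopologicalSpace E] [MeasurableSpace E] [BorelSpace E] [Zero E]
    (S : Set (V n)) (hS : MeasurableSet S) (g : V n → E) (hg : ContinuousOn g S) :
    Measurable (S.indicator g) := by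
  classical
  rw [← Set.piecewise_eq_indicator]
  exact ContinuousOn.measurable_piecewise hg continuousOn_const hS

variable {X : Type} [TopologicalSpace X] {ι : Type}

theorem dom_lint (A : Atl n X ι) (f : V n → X) (I : Set (V n))
    (hS : Sing A f I) (a : ι) (hO : IsOpen (Oa A f I a))
    (hO2 : Oa A f I a ⊆ (Dp n \ I) ∩ Cb A f a 2)
    (K : Set (V n)) (hK : K ⊆ Dp n) (hKc : IsCompact K) (g : V n → ℝ≥0∞) (C : ℝ)
    (hb : ∀ z ∈ Oa A f I a, z ∈ K → g z ≤ ENNReal.ofReal (C * Dm (FF A f a) z))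
    (hz : ∀ z ∈ Oa A f I a, z ∉ K → g z = 0) :
    ∫⁻ z in Oa A f I a, g z < ⊤ := by
  have hs1 := hS.s1 K hK hKc a
  have h1 : ∫⁻ z in Oa A f I a, g z
      ≤ ∫⁻ z in Oa A f I a, K.indicator
        (fun z => ENNReal.ofReal |C| * ENNReal.ofReal (Dm (FF A f a) z)) z := by
    refine setLIntegral_mono_ae' hO.measurableSet (Eventually.of_forall fun z hz' => ?_)
    by_cases hzK : z ∈ K
    · rw [indicator_of_mem hzK, ← ENNReal.ofReal_mul (abs_nonneg _)]
      refine (hb z hz' hzK).trans (ENNReal.ofReal_le_ofReal ?_)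
      refine mul_le_mul_of_nonneg_right (le_abs_self _) ?_
      exact Finset.sum_nonneg fun _ _ => sq_nonneg _
    · rw [indicator_of_notMem hzK, hz z hz' hzK]
  have h2 : ∫⁻ z in Oa A f I a, K.indicator
        (fun z => ENNReal.ofReal |C| * ENNReal.ofReal (Dm (FF A f a) z)) z
      = ∫⁻ z in K ∩ Oa A f I a, ENNReal.ofReal |C| * ENNReal.ofReal (Dm (FF A f a) z) := by
    rw [lintegral_indicator hKc.isClosed.measurableSet,
      Measure.restrict_restrict hKc.isClosed.measurableSet]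
  have h3 : ∫⁻ z in K ∩ Oa A f I a, ENNReal.ofReal |C| * ENNReal.ofReal (Dm (FF A f a) z)
      ≤ ∫⁻ z in (K \ I) ∩ Cb A f a 2, ENNReal.ofReal |C| * ENNReal.ofReal (Dm (FF A f a) z) := by
    refine lintegral_mono_set fun z hz' => ?_
    exact ⟨⟨hz'.1, (hO2 hz'.2).1.2⟩, (hO2 hz'.2).2⟩
  have h4 : ∫⁻ z in (K \ I) ∩ Cb A f a 2,
      ENNReal.ofReal |C| * ENNReal.ofReal (Dm (FF A f a) z) < ⊤ := by
    rw [lintegral_const_mul' _ _ ENNReal.ofReal_ne_top]
    exact ENNReal.mul_lt_top ENNReal.ofReal_lt_top hs1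
  exact (h1.trans (h2.le.trans h3)).trans_lt h4

/-- strong measurability of functions with values in the real dual, from components -/
theorem aesm_dual {Z : Type*} [MeasurableSpace Z] (μ : Measure Z) (B : Z → V n →L[ℝ] ℝ)
    (h : ∀ v, AEStronglyMeasurable (fun y => B y v) μ) : AEStronglyMeasurable B μ := by
  have h1 : B = fun y => ∑ k : Fin n,
      ((B y (ek k)) • (Complex.reCLM.comp
        ((ContinuousLinearMap.proj (R := ℂ) (φ := fun _ : Fin n => ℂ) k).restrictScalars ℝ))
      + (B y (Complex.I • (ek k : V n))) • (Complex.imCLM.comp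
        ((ContinuousLinearMap.proj (R := ℂ) (φ := fun _ : Fin n => ℂ) k).restrictScalars ℝ))) := by
    funext y
    ext1 v
    rw [sum_apply]
    conv_lhs => rw [vec_eq_sum v, map_sum]
    refine Finset.sum_congr rfl fun k _ => ?_
    have e : v k • (ek k : V n) = (v k).re • (ek k : V n)
        + (v k).im • (Complex.I • (ek k : V n)) := by
      conv_lhs => rw [← Complex.re_add_im (v k)]
      rw [add_smul, mul_smul]
      congr 1
    rw [e, map_add, map_smul, map_smul]
    simp only [add_apply, smul_apply, smul_eq_mul]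
    rw [mul_comm, mul_comm (v k).im]
    rfl
  rw [h1]
  refine Finset.aestronglyMeasurable_fun_sum _ fun k _ => ?_
  exact ((h _).smul_const _).add ((h _).smul_const _)

end meas

end Pool.Agent.H27.VG
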