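import Mathlib
import Pool.Agent.H95.VG.Targets1
import Pool.Agent.H95.VG.Targets3
import Pool.Agent.H27.VG.Base
import Pool.Agent.H27.VG.Base2
import Pool.Agent.H27.VG.ARS
import Pool.Agent.H27.VG.PSHB

/-!
# VG: module PSH, push forward of `dχ`
-/

open MeasureTheory Set Filter Topology
open scoped ENNReal NNReal ContDiff ComplexConjugate

namespace Pool.Agent.H27.VG

open Pool.Agent.H95.VG

variable {n : ℕ} {X : Type} [TopologicalSpace X] {ι : Type}

/-- the push forward -/
noncomputable def bpsh (A : Atl n X ι) (f : V n → X) (I : Set (V n)) (a : ι) (y : V n) :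
    V n →L[ℝ] ℝ := ∑' z : Fb (Oa A f I a) (FF A f a) y, Tz (FF A f a) z.1

theorem Tz_trans (Y Y' : V n → V n) (z : V n) (J : Matrix (Fin n) (Fin n) ℂ)
    (hJ : jac Y' z = J * jac Y z) (h0 : J.det ≠ 0) :
    Tz Y z = (Tz Y' z).comp
      ((LinearMap.toContinuousLinearMap (Matrix.mulVecLin J)).restrictScalars ℝ) := by
  ext1 v
  show fderiv ℝ chi z (Mi Y z v) = fderiv ℝ chi z (Mi Y' z (J.mulVec v))
  rw [Mi_apply, Mi_apply, hJ, Matrix.mulVec_mulVec, Matrix.mul_inv_rev, Matrix.mul_assoc,
    Matrix.nonsing_inv_mul J (isUnit_iff_ne_zero.2 h0), Matrix.mul_one]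

theorem fb_iff (h : T_OAO) [T2Space X] (A : Atl n X ι) (f : V n → X) (I : Set (V n))
    (hS : Sing A f I)
    (a b : ι) (y : V n) (hy : y ∈ tdo A a b) (z : V n) :
    (z ∈ Oa A f I a ∧ FF A f a z = y ∧ (jac (FF A f a) z).det ≠ 0) ↔
    (z ∈ Oa A f I b ∧ FF A f b z = tr A a b y ∧ (jac (FF A f b) z).det ≠ 0) := by
  obtain ⟨-, -, -, -, -, hja⟩ := h n X ι A f I hS a
  obtain ⟨-, -, -, -, -, hjb⟩ := h n X ι A f I hS b
  obtain ⟨hy1, hy2, hy3⟩ := hy
  have hyt : y ∈ (A.φ a).target := A.ball a (Metric.ball_subset_closedBall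
    (Metric.ball_subset_ball (by norm_num) hy1))
  constructor
  · rintro ⟨⟨hz1, hz2, hz3⟩, rfl, hd⟩
    have e1 : (A.φ a).symm (FF A f a z) = f z := (A.φ a).left_inv hz2
    have hb : f z ∈ (A.φ b).source := e1 ▸ hy2
    have e2 : tr A a b (FF A f a z) = FF A f b z := by
      unfold tr; rw [e1]; rfl
    rw [e2] at hy3 ⊢
    refine ⟨⟨hz1, hb, hy3⟩, rfl, fun h0 => hd ?_⟩
    rw [hja b z hz1 hz2 hb, Matrix.det_mul, h0, mul_zero]
  · rintro ⟨⟨hz1, hz2, hz3⟩, he, hd⟩
    have e1 : f z = (A.φ a).symm y := (A.φ b).injOn hz2 hy2 he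
    have ha : f z ∈ (A.φ a).source := by rw [e1]; exact (A.φ a).map_target hyt
    have e2 : FF A f a z = y := by
      show A.φ a (f z) = y
      rw [e1]; exact (A.φ a).right_inv hyt
    refine ⟨⟨hz1, ha, ?_⟩, e2, fun h0 => hd ?_⟩
    · have : A.φ a (f z) = y := e2
      rw [this]; exact hy1
    · rw [hjb a z hz1 hz2 ha, Matrix.det_mul, h0, mul_zero]

theorem bpsh_trans (h : T_OAO) [T2Space X] (A : Atl n X ι) (f : V n → X) (I : Set (V n))
    (hS : Sing A f I) (a b : ι) (y : V n) (hy : y ∈ tdo A a b) :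
    bpsh A f I a y = (bpsh A f I b (tr A a b y)).comp (fderiv ℝ (tr A a b) y) := by
  have hiff := fb_iff h A f I hS a b y hy
  obtain ⟨-, -, -, -, -, hjb⟩ := h n X ι A f I hS b
  have E : Fb (Oa A f I a) (FF A f a) y ≃ Fb (Oa A f I b) (FF A f b) (tr A a b y) :=
    Equiv.subtypeEquivRight hiff
  obtain ⟨E, hE⟩ : ∃ E : Fb (Oa A f I a) (FF A f a) y ≃ Fb (Oa A f I b) (FF A f b) (tr A a b y),
      ∀ z, (E z).1 = z.1 := ⟨Equiv.subtypeEquivRight hiff, fun z => rfl⟩
  rcases isEmpty_or_nonempty (Fb (Oa A f I a) (FF A f a) y) with he | ⟨⟨z0, hz0⟩⟩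
  · have he' : IsEmpty (Fb (Oa A f I b) (FF A f b) (tr A a b y)) := E.symm.isEmpty
    unfold bpsh
    rw [tsum_empty, tsum_empty]; simp
  · -- the transition Jacobian
    obtain ⟨J, hJ⟩ : ∃ J, J = jac (tr A a b) y := ⟨_, rfl⟩
    have hz0b := (hiff z0).1 hz0
    have hjac : ∀ z : V n, (z ∈ Oa A f I a ∧ FF A f a z = y ∧ (jac (FF A f a) z).det ≠ 0) →
        jac (FF A f b) z = J * jac (FF A f a) z := by
      intro z hz
      have hzb := (hiff z).1 hz
      have := hjb a z hz.1.1 hzb.1.2.1 hz.1.2.1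
      rw [this, hJ]
      have e : A.φ a (f z) = y := hz.2.1
      rw [e]; rfl
    have hJ0 : J.det ≠ 0 := by
      intro h0
      have := hz0b.2.2
      rw [hjac z0 hz0, Matrix.det_mul, h0, zero_mul] at this
      exact this rfl
    obtain ⟨hy1, hy2, hy3⟩ := hy
    have hyt : y ∈ (A.φ a).target := A.ball a (Metric.ball_subset_closedBall
      (Metric.ball_subset_ball (by norm_num) hy1))
    have hdiff : DifferentiableAt ℂ (tr A a b) y := by
      have h1 := A.hol a b
      have h2 : y ∈ ((A.φ a).symm.trans (A.φ b)).source := by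
        rw [OpenPartialHomeomorph.trans_source]
        exact ⟨hyt, hy2⟩
      exact h1.differentiableAt (((A.φ a).symm.trans (A.φ b)).open_source.mem_nhds h2)
    have hD : fderiv ℝ (tr A a b) y
        = (LinearMap.toContinuousLinearMap (Matrix.mulVecLin J)).restrictScalars ℝ := by
      rw [hdiff.fderiv_restrictScalars ℝ]
      ext1 v
      show fderiv ℂ (tr A a b) y v = J.mulVec v
      rw [fderiv_eq_mulVec, hJ]
    rw [hD]
    -- the equivalence
    have l1 : Function.LeftInverse
        (((LinearMap.toContinuousLinearMap (Matrix.mulVecLin J⁻¹)).restrictScalars ℝ) :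
          V n →L[ℝ] V n)
        (((LinearMap.toContinuousLinearMap (Matrix.mulVecLin J)).restrictScalars ℝ) :
          V n →L[ℝ] V n) := by
      intro v
      show J⁻¹.mulVec (J.mulVec v) = v
      rw [Matrix.mulVec_mulVec, Matrix.nonsing_inv_mul J (isUnit_iff_ne_zero.2 hJ0),
        Matrix.one_mulVec]
    have l2 : Function.RightInverse
        (((LinearMap.toContinuousLinearMap (Matrix.mulVecLin J⁻¹)).restrictScalars ℝ) :
          V n →L[ℝ] V n)
        (((LinearMap.toContinuousLinearMap (Matrix.mulVecLin J)).restrictScalars ℝ) :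
          V n →L[ℝ] V n) := by
      intro v
      show J.mulVec (J⁻¹.mulVec v) = v
      rw [Matrix.mulVec_mulVec, Matrix.mul_nonsing_inv J (isUnit_iff_ne_zero.2 hJ0),
        Matrix.one_mulVec]
    obtain ⟨e, he⟩ : ∃ e : V n ≃L[ℝ] V n, (e : V n →L[ℝ] V n)
        = (LinearMap.toContinuousLinearMap (Matrix.mulVecLin J)).restrictScalars ℝ :=
      ⟨ContinuousLinearEquiv.equivOfInverse _ _ l1 l2, rfl⟩
    have hcomp : ∀ T : V n →L[ℝ] ℝ, (e.symm.arrowCongr (ContinuousLinearEquiv.refl ℝ ℝ)) T
        = T.comp (e : V n →L[ℝ] V n) := by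
      intro T; ext1 v; simp
    unfold bpsh
    rw [← he, ← hcomp, ContinuousLinearEquiv.map_tsum, ← E.tsum_eq]
    refine tsum_congr fun z => ?_
    rw [hE, hcomp, he]
    exact Tz_trans _ _ _ J (hjac z.1 z.2) hJ0

theorem tdo_open (A : Atl n X ι) (a b : ι) : IsOpen (tdo A a b) := by
  have h1 : IsOpen (Metric.ball (0 : V n) 2 ∩ ((A.φ a).symm.trans (A.φ b)).source) :=
    Metric.isOpen_ball.inter ((A.φ a).symm.trans (A.φ b)).open_source
  have h2 : ContinuousOn (tr A a b)
      (Metric.ball (0 : V n) 2 ∩ ((A.φ a).symm.trans (A.φ b)).source) :=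
    ((A.φ a).symm.trans (A.φ b)).continuousOn.mono inter_subset_right
  have h3 : tdo A a b = (Metric.ball (0 : V n) 2 ∩ ((A.φ a).symm.trans (A.φ b)).source) ∩
      (tr A a b) ⁻¹' (Metric.ball (0 : V n) 2) := by
    ext y
    constructor
    · rintro ⟨hy1, hy2, hy3⟩
      have hyt : y ∈ (A.φ a).target := A.ball a (Metric.ball_subset_closedBall
        (Metric.ball_subset_ball (by norm_num) hy1))
      refine ⟨⟨hy1, ?_⟩, hy3⟩
      rw [OpenPartialHomeomorph.trans_source]
      exact ⟨hyt, hy2⟩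
    · rintro ⟨⟨hy1, hy2⟩, hy3⟩
      rw [OpenPartialHomeomorph.trans_source] at hy2
      exact ⟨hy1, hy2.2, hy3⟩
  rw [h3]
  exact h2.isOpen_inter_preimage h1 Metric.isOpen_ball

theorem summable_apply_aux {J : Type*} (g : J → V n →L[ℝ] ℝ) (h : Summable g) (v : V n) :
    Summable (fun j => g j v) := by
  have h1 := (ContinuousLinearMap.apply ℝ ℝ v : (V n →L[ℝ] ℝ) →L[ℝ] ℝ).summable h
  exact h1

theorem enorm_tsum_aux {E J : Type*} [NormedAddCommGroup E] (g : J → E)
    (h : ∑' j, ‖g j‖ₑ ≠ ⊤) : ‖∑' j, g j‖ₑ ≤ ∑' j, ‖g j‖ₑ := by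
  have hs := norm_summable_of_enorm g h
  rw [← ofReal_norm]
  refine (ENNReal.ofReal_le_ofReal (norm_tsum_le_tsum_norm hs)).trans ?_
  rw [ENNReal.ofReal_tsum_of_nonneg (fun _ => norm_nonneg _) hs]
  exact ENNReal.tsum_le_tsum fun j => (ofReal_norm _).le

theorem chi_supp (h : T_CUT) : Continuous (fderiv ℝ (chi (n := n))) ∧
    ∃ K : Set (V n), IsCompact K ∧ K ⊆ Dp n ∧ ∀ z, z ∉ K → fderiv ℝ (chi (n := n)) z = 0 := by
  obtain ⟨h1, h2, h3, -⟩ := h n
  have hc : Continuous (fderiv ℝ (chi (n := n))) := h1.continuous_fderiv (by simp)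
  refine ⟨hc, tsupport (fderiv ℝ (chi (n := n))), h2.fderiv ℝ, ?_,
    fun z hz => image_eq_zero_of_notMem_tsupport hz⟩
  have hn : Continuous (nsq (n := n)) := by
    unfold nsq; fun_prop
  have hcl : IsClosed {z : V n | 1 / 4 ≤ nsq z ∧ nsq z ≤ 1 / 2} :=
    (isClosed_le continuous_const hn).inter (isClosed_le hn continuous_const)
  have hsub : tsupport (fderiv ℝ (chi (n := n))) ⊆ {z : V n | 1 / 4 ≤ nsq z ∧ nsq z ≤ 1 / 2} := by
    refine closure_minimal (fun z hz => ?_) hcl
    by_contra hcon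
    apply hz
    rw [Set.mem_ofPred_eq, not_and_or] at hcon
    rcases hcon with hcon | hcon
    · have e : chi =ᶠ[𝓝 z] fun _ => (1 : ℝ) := by
        filter_upwards [(isOpen_lt hn continuous_const).mem_nhds (not_le.1 hcon)] with z' hz'
        exact (h3 z').2.2.1 (le_of_lt hz')
      rw [e.fderiv_eq]; simp
    · have e : chi =ᶠ[𝓝 z] fun _ => (0 : ℝ) := by
        filter_upwards [(isOpen_lt continuous_const hn).mem_nhds (not_le.1 hcon)] with z' hz'
        exact (h3 z').2.2.2 (le_of_lt hz')
      rw [e.fderiv_eq]; simp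
  intro z hz
  have := hsub hz
  exact ⟨by linarith [this.1], by linarith [this.2]⟩

theorem psh (h1 : T_SMO) (h2 : T_LIN) (h3 : T_DOM) (h4 : T_OAO) (h5 : T_ARE) (h6 : T_CUT)
    (h7 : T_PIO) : T_PSH := by
  intro n X _ _ ι A f I hS
  refine ⟨bpsh A f I, ?_⟩
  obtain ⟨hcchi, K, hKc, hK, hKz⟩ := chi_supp (n := n) h6
  obtain ⟨Bd, hBd⟩ := hKc.exists_bound_of_continuousOn hcchi.continuousOn
  have hBd' : ∀ z, ‖fderiv ℝ (chi (n := n)) z‖ ≤ max Bd 0 := by
    intro z
    by_cases hz : z ∈ K
    · exact (hBd z hz).trans (le_max_left _ _)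
    · rw [hKz z hz, norm_zero]; exact le_max_right _ _
  obtain ⟨B, hB0, hB⟩ : ∃ B : ℝ, 0 ≤ B ∧ ∀ z, ‖fderiv ℝ (chi (n := n)) z‖ ≤ B :=
    ⟨_, le_max_right _ _, hBd'⟩
  have main : ∀ a, IntegrableOn (bpsh A f I a) (Metric.ball (0 : V n) 2) ∧
      ∀ k (p : V n → ℂ), Continuous p → (∃ C : ℝ, ∀ y, ‖p y‖ ≤ C) →
    IntegrableOn (fun z => p (FF A f a z) * (conj (jac (FF A f a) z).det *
      dr chi z (cf (FF A f a) k z))) (Oa A f I a) ∧
    ∫ y in Metric.ball (0 : V n) 2, p y * b10 (bpsh A f I a y) (ek k)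
      = ∫ z in Oa A f I a, p (FF A f a z) * (conj (jac (FF A f a) z).det *
          dr chi z (cf (FF A f a) k z)) := by
    intro a
    obtain ⟨hO, hF, -, hR2, hO2, -⟩ := h4 n X ι A f I hS a
    obtain ⟨F, hFe⟩ : ∃ F : V n → V n, F = FF A f a := ⟨_, rfl⟩
    unfold bpsh
    rw [← hFe] at hF ⊢
    have hX : ∀ k, DifferentiableOn ℂ (cf F k) (Oa A f I a) := fun k => (h7 n _ F hO hF k).1
    have hdet : DifferentiableOn ℂ (fun z => (jac F z).det) (Oa A f I a) :=
      det_hol h1 _ F hO hF
    have cdet := hdet.continuousOn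
    have hDm0 : ∀ z, 0 ≤ Dm F z := fun z => Finset.sum_nonneg fun _ _ => sq_nonneg _
    have hXn : ∀ z ∈ Oa A f I a, ∀ k, ‖cf F k z‖ ≤ Real.sqrt (Dm F z) := by
      intro z hz k
      have := h3 n F z (hF.differentiableAt (hO.mem_nhds hz))
      rw [pi_norm_le_iff_of_nonneg (Real.sqrt_nonneg _)]
      intro i
      exact Real.le_sqrt_of_sq_le (this.2.2.2.2.1 k i)
    have hdn : ∀ z ∈ Oa A f I a, ‖(jac F z).det‖ ≤ Real.sqrt (Dm F z) := by
      intro z hz
      have := h3 n F z (hF.differentiableAt (hO.mem_nhds hz))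
      exact Real.le_sqrt_of_sq_le this.2.1
    obtain ⟨S, hSe⟩ : ∃ S, S = Oa A f I a ∩ (fun z => (jac F z).det) ⁻¹' {0}ᶜ := ⟨_, rfl⟩
    have hSo : IsOpen S := hSe ▸ cdet.isOpen_inter_preimage hO isOpen_compl_singleton
    have hSO : S ⊆ Oa A f I a := hSe ▸ inter_subset_left
    have hSd : ∀ z ∈ S, (jac F z).det ≠ 0 := by
      intro z hz; rw [hSe] at hz; exact hz.2
    have hmemS : ∀ y, ∀ z : Fb (Oa A f I a) F y, z.1 ∈ S := by
      intro y z; rw [hSe]; exact ⟨z.2.1, z.2.2.2⟩
    have cM : ContinuousOn (Mi F) S :=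
      Mi_cont F S (cdet.mono hSO) hSd fun k => (hX k).continuousOn.mono hSO
    have cT : ContinuousOn (Tz F) S := by
      have r : ContinuousOn (fun z => (Mi F z).restrictScalars ℝ) S :=
        (ContinuousLinearMap.restrictScalarsL ℂ (V n) (V n) ℝ ℝ).continuous.comp_continuousOn cM
      exact hcchi.continuousOn.clm_comp r
    -- norm bound
    have hTn : ∀ z ∈ S, ‖Tz F z‖ * ‖(jac F z).det‖ ^ 2 ≤ (B * n) * Dm F z := by
      intro z hz
      have e1 : ‖Tz F z‖ ≤ B * (‖(jac F z).det‖⁻¹ * (n * Real.sqrt (Dm F z))) := by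
        refine (ContinuousLinearMap.opNorm_comp_le _ _).trans ?_
        rw [ContinuousLinearMap.norm_restrictScalars]
        exact mul_le_mul (hB z) (Mi_norm F z _ (hXn z (hSO hz))) (norm_nonneg _) hB0
      have e2 := hdn z (hSO hz)
      have e3 : 0 < ‖(jac F z).det‖ := norm_pos_iff.2 (hSd z hz)
      have e4 := Real.sq_sqrt (hDm0 z)
      calc ‖Tz F z‖ * ‖(jac F z).det‖ ^ 2
          ≤ B * (‖(jac F z).det‖⁻¹ * (n * Real.sqrt (Dm F z))) * ‖(jac F z).det‖ ^ 2 := by gcongr
        _ = B * n * (Real.sqrt (Dm F z) * ‖(jac F z).det‖) := by field_simp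
        _ ≤ B * n * (Real.sqrt (Dm F z) * Real.sqrt (Dm F z)) := by gcongr
        _ = (B * n) * Dm F z := by rw [← pow_two, e4]
    have hT0 : ∀ z, z ∉ K → Tz F z = 0 := by
      intro z hz; unfold Tz; rw [hKz z hz]; simp
    -- finiteness for functions dominated by the norm of `Tz`
    have hfin : ∀ {E : Type} [NormedAddCommGroup E] (g : V n → E) (C : ℝ), 0 ≤ C →
        (∀ z ∈ S, ‖g z‖ ≤ C * ‖Tz F z‖) → (∀ z, z ∉ S → g z = 0) →
        ∫⁻ z in Oa A f I a, ‖g z‖ₑ * ENNReal.ofReal (‖(jac F z).det‖ ^ 2) < ⊤ := by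
      intro E _ g C hC hg hg0
      refine dom_lint A f I hS a hO hO2 K hK hKc _ (C * (B * n)) ?_ ?_
      · intro z hz hzK
        rw [← hFe]
        by_cases hzS : z ∈ S
        · rw [← ofReal_norm, ← ENNReal.ofReal_mul (norm_nonneg _)]
          refine ENNReal.ofReal_le_ofReal ?_
          calc ‖g z‖ * ‖(jac F z).det‖ ^ 2 ≤ C * ‖Tz F z‖ * ‖(jac F z).det‖ ^ 2 := by
                gcongr; exact hg z hzS
            _ = C * (‖Tz F z‖ * ‖(jac F z).det‖ ^ 2) := by ring
            _ ≤ C * ((B * n) * Dm F z) := mul_le_mul_of_nonneg_left (hTn z hzS) hC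
            _ = C * (B * n) * Dm F z := by ring
        · rw [hg0 z hzS, enorm_zero, zero_mul]; exact bot_le
      · intro z hz hzK
        by_cases hzS : z ∈ S
        · have := hg z hzS
          rw [hT0 z hzK, norm_zero, mul_zero] at this
          rw [norm_le_zero_iff.1 this, enorm_zero, zero_mul]
        · rw [hg0 z hzS, enorm_zero, zero_mul]
    -- sum of the norms
    have mQ := h5 n (Oa A f I a) (Oa A f I a) F (fun z => S.indicator (fun z => ‖Tz F z‖ₑ) z) hO
      hF hO.measurableSet Subset.rfl (meas_ind S hSo.measurableSet _ cT.enorm)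
    obtain ⟨mQ1, mQ2, -⟩ := mQ
    have hQfin : ∫⁻ y, ∑' z : Fb (Oa A f I a) F y, ‖Tz F z.1‖ₑ < ⊤ := by
      have e : ∀ y, ∑' z : Fb (Oa A f I a) F y, ‖Tz F z.1‖ₑ
          = ∑' z : Fb (Oa A f I a) F y, S.indicator (fun z => ‖Tz F z‖ₑ) z.1 := by
        intro y
        refine tsum_congr fun z => ?_
        rw [indicator_of_mem (hmemS y z)]
      simp_rw [e]
      rw [← mQ2]
      have := hfin (fun z => S.indicator (Tz F) z) 1 zero_le_one
        (fun z hz => by rw [indicator_of_mem hz, one_mul])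
        (fun z hz => indicator_of_notMem hz _)
      refine lt_of_eq_of_lt (lintegral_congr fun z => ?_) this
      by_cases hz : z ∈ S
      · rw [indicator_of_mem hz, indicator_of_mem hz]
      · simp only [indicator_of_notMem hz, zero_mul]
        simp
    have mQm : Measurable (fun y => ∑' z : Fb (Oa A f I a) F y, ‖Tz F z.1‖ₑ) := by
      have e : (fun y => ∑' z : Fb (Oa A f I a) F y, ‖Tz F z.1‖ₑ)
          = fun y => ∑' z : Fb (Oa A f I a) F y, S.indicator (fun z => ‖Tz F z‖ₑ) z.1 := by
        funext y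
        refine tsum_congr fun z => ?_
        rw [indicator_of_mem (hmemS y z)]
      rw [e]; exact mQ1
    have aeS : ∀ᵐ y, Summable (fun z : Fb (Oa A f I a) F y => Tz F z.1) := by
      filter_upwards [ae_lt_top mQm hQfin.ne] with y hy
      exact (norm_summable_of_enorm _ hy.ne).of_norm
    refine ⟨?_, ?_⟩
    · -- integrability
      suffices hI : Integrable (fun y => ∑' z : Fb (Oa A f I a) F y, Tz F z.1) from
        hI.integrableOn
      constructor
      · refine aesm_dual _ _ fun v => ?_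
        have m1 : Measurable (S.indicator fun z => Tz F z v) :=
          meas_ind S hSo.measurableSet _ (cT.clm_apply continuousOn_const)
        have m2 : ∀ z ∈ S, ‖(S.indicator fun z => Tz F z v) z‖ ≤ ‖v‖ * ‖Tz F z‖ := by
          intro z hz
          rw [indicator_of_mem hz, mul_comm]; exact (Tz F z).le_opNorm v
        have m3 : ∀ z, z ∉ S → (S.indicator fun z => Tz F z v) z = 0 :=
          fun z hz => indicator_of_notMem hz _
        have m4 := hfin (S.indicator fun z => Tz F z v) ‖v‖ (norm_nonneg _) m2 m3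
        have := (are_real h5 (Oa A f I a) (Oa A f I a) F hO hF hO.measurableSet Subset.rfl cdet
          (S.indicator fun z => Tz F z v) m1 m4).2.1
        refine this.1.congr ?_
        filter_upwards [aeS] with y hy
        have e := (ContinuousLinearMap.apply ℝ ℝ v : (V n →L[ℝ] ℝ) →L[ℝ] ℝ).map_tsum hy
        show _ = (∑' z : Fb (Oa A f I a) F y, Tz F z.1) v
        have e' : (∑' z : Fb (Oa A f I a) F y, Tz F z.1) v
          = ∑' z : Fb (Oa A f I a) F y, Tz F z.1 v := e
        rw [e']
        exact tsum_congr fun z => indicator_of_mem (hmemS y z) _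
      · refine lt_of_le_of_lt (lintegral_mono_ae ?_) hQfin
        filter_upwards [ae_lt_top mQm hQfin.ne] with y hy
        exact enorm_tsum_aux _ hy.ne
    · intro k p hp hpb
      obtain ⟨C, hC⟩ := hpb
      have hC0 : 0 ≤ C := (norm_nonneg _).trans (hC 0)
      have cpF : ContinuousOn (fun z => p (F z)) (Oa A f I a) :=
        hp.comp_continuousOn hF.continuousOn
      have cdr : ContinuousOn (fun z => dr chi z (cf F k z)) (Oa A f I a) := by
        unfold dr
        have g1 : ContinuousOn (fun z => fderiv ℝ chi z (cf F k z)) (Oa A f I a) :=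
          hcchi.continuousOn.clm_apply (hX k).continuousOn
        have g2 : ContinuousOn (fun z => fderiv ℝ chi z (Complex.I • cf F k z))
            (Oa A f I a) :=
          hcchi.continuousOn.clm_apply ((hX k).continuousOn.const_smul Complex.I)
        exact ((Complex.continuous_ofReal.comp_continuousOn g1).sub
          (continuousOn_const.mul (Complex.continuous_ofReal.comp_continuousOn g2))).div_const _
      have int1 : IntegrableOn (fun z => p (F z) * (conj (jac F z).det *
          dr chi z (cf F k z))) (Oa A f I a) := by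
        have hc : ContinuousOn (fun z => p (F z) * (conj (jac F z).det *
          dr chi z (cf F k z))) (Oa A f I a) :=
          cpF.mul ((Complex.continuous_conj.comp_continuousOn cdet).mul cdr)
        refine dom_int A f I hS a hO hO2 K hK hKc _ hc (C * B) ?_ ?_
        · intro z hz hzK
          rw [← hFe, norm_mul, norm_mul, Complex.norm_conj]
          have e1 : ‖dr chi z (cf F k z)‖ ≤ B * Real.sqrt (Dm F z) :=
            (norm_dr_le _ _ _).trans (mul_le_mul (hB z) (hXn z hz k) (norm_nonneg _) hB0)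
          have e2 := hdn z hz
          have e4 := Real.sq_sqrt (hDm0 z)
          calc ‖p (F z)‖ * (‖(jac F z).det‖ * ‖dr chi z (cf F k z)‖)
              ≤ C * (Real.sqrt (Dm F z) * (B * Real.sqrt (Dm F z))) := by
                gcongr
                exact hC _
            _ = C * B * (Real.sqrt (Dm F z)) ^ 2 := by ring
            _ = C * B * Dm F z := by rw [e4]
        · intro z hz hzK
          have : dr chi z (cf F k z) = 0 := by unfold dr; rw [hKz z hzK]; simp
          rw [this]; simp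
      refine ⟨int1, ?_⟩
      have hb10 : ∀ z, ‖b10 (Tz F z) (ek k)‖ ≤ ‖Tz F z‖ := by
        intro z
        unfold b10
        refine (half_bound _ _ _ ?_ ?_).1
        · rw [Complex.norm_real]
          refine ((Tz F z).le_opNorm _).trans ?_
          exact mul_le_of_le_one_right (norm_nonneg _) (ek_norm_le k)
        · rw [Complex.norm_real]
          refine ((Tz F z).le_opNorm _).trans ?_
          rw [norm_I_smul]
          exact mul_le_of_le_one_right (norm_nonneg _) (ek_norm_le k)
      have cb10 : ContinuousOn (fun z => b10 (Tz F z) (ek k)) S := by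
        unfold b10
        exact ((Complex.continuous_ofReal.comp_continuousOn
          (cT.clm_apply continuousOn_const)).sub
          (continuousOn_const.mul (Complex.continuous_ofReal.comp_continuousOn
            (cT.clm_apply continuousOn_const)))).div_const _
      obtain ⟨-, r2, r3⟩ := are_cpx h5 (Oa A f I a) (Oa A f I a) F hO hF hO.measurableSet
        Subset.rfl cdet (S.indicator fun z => p (F z) * b10 (Tz F z) (ek k))
        (meas_ind S hSo.measurableSet _ ((cpF.mono hSO).mul cb10))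
        (hfin _ C hC0 (fun z hz => by
              rw [indicator_of_mem hz, norm_mul]
              exact mul_le_mul (hC _) (hb10 z) (norm_nonneg _) hC0)
              (fun z hz => indicator_of_notMem hz _))
      have e1 : ∫ z in Oa A f I a, (S.indicator fun z => p (F z) * b10 (Tz F z) (ek k)) z
          * (‖(jac F z).det‖ ^ 2 : ℝ)
          = ∫ z in Oa A f I a, p (F z) * (conj (jac F z).det * dr chi z (cf F k z)) := by
        refine setIntegral_congr_fun hO.measurableSet fun z hz => ?_
        by_cases hzS : z ∈ S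
        · simp only [indicator_of_mem hzS]
          rw [b10_Tz h2]
          have e4 : ((‖(jac F z).det‖ ^ 2 : ℝ) : ℂ) = (jac F z).det * conj (jac F z).det := by
            rw [Complex.mul_conj, Complex.normSq_eq_norm_sq]
          rw [e4]
          have := hSd z hzS
          field_simp
        · simp only [indicator_of_notMem hzS]
          have : (jac F z).det = 0 := by
            by_contra h0
            exact hzS (by rw [hSe]; exact ⟨hz, h0⟩)
          rw [this]; simp
      rw [← e1, ← r3]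
      have e2 : ∀ᵐ y, y ∈ Metric.ball (0 : V n) 2 →
          p y * b10 (∑' z : Fb (Oa A f I a) F y, Tz F z.1) (ek k)
          = ∑' z : Fb (Oa A f I a) F y,
            (S.indicator fun z => p (F z) * b10 (Tz F z) (ek k)) z.1 := by
        filter_upwards [aeS] with y hy _
        have t1 : ∀ v, (∑' z : Fb (Oa A f I a) F y, Tz F z.1) v
          = ∑' z : Fb (Oa A f I a) F y, Tz F z.1 v := fun v =>
            (ContinuousLinearMap.apply ℝ ℝ v : (V n →L[ℝ] ℝ) →L[ℝ] ℝ).map_tsum hy
        have t2 : ∀ v, Summable (fun z : Fb (Oa A f I a) F y => Tz F z.1 v) := fun v =>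
          summable_apply_aux _ hy v
        have t3 : ∀ z : Fb (Oa A f I a) F y,
            (S.indicator fun z => p (F z) * b10 (Tz F z) (ek k)) z.1
            = p y * b10 (Tz F z.1) (ek k) := by
          intro z
          rw [indicator_of_mem (hmemS y z), z.2.2.1]
        simp_rw [t3]
        rw [tsum_mul_left]
        congr 1
        unfold b10
        rw [t1, t1, tsum_div_const, Complex.ofReal_tsum, Complex.ofReal_tsum, ← tsum_mul_left,
          ← Summable.tsum_sub (Complex.summable_ofReal.2 (t2 _))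
            ((Complex.summable_ofReal.2 (t2 _)).mul_left _)]
      rw [setIntegral_congr_ae Metric.isOpen_ball.measurableSet e2]
      refine setIntegral_eq_integral_of_forall_compl_eq_zero fun y hy => ?_
      have : IsEmpty (Fb (Oa A f I a) F y) := by
        refine ⟨fun z => hy ?_⟩
        have h0 := z.2.1.2.2
        have h1 : y = A.φ a (f z.1) := z.2.2.1.symm.trans (congrFun hFe z.1)
        rw [h1]
        exact h0
      rw [tsum_empty]
  exact ⟨fun a => (main a).1, fun a k p hp hC => (main a).2 k p hp hC, fun a b =>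
    ae_restrict_of_forall_mem (tdo_open A a b).measurableSet fun y hy => bpsh_trans h4 A f I hS a b y hy⟩

end Pool.Agent.H27.VG
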