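import Mathlib
import Pool.Agent.H95.VG.Targets1
import Pool.Agent.H27.VG.Base
import Pool.Agent.H27.VG.Base2

/-!
# VG: module SYM, second order identity
-/

open MeasureTheory Set Filter Topology
open scoped ENNReal NNReal ContDiff ComplexConjugate

namespace Pool.Agent.H27.VG

open Pool.Agent.H95.VG

variable {n : ℕ}

/-- the real linear map `D ↦ conj ((D v - I D (I v)) / 2)` -/
noncomputable def Lq (v : V n) : (V n →L[ℝ] ℝ) →L[ℝ] ℂ :=
  (Complex.conjCLE : ℂ →L[ℝ] ℂ).comp
    ((2 : ℝ)⁻¹ • ((Complex.ofRealCLM.comp (ContinuousLinearMap.apply ℝ ℝ v)) -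
      Complex.I • (Complex.ofRealCLM.comp (ContinuousLinearMap.apply ℝ ℝ (Complex.I • v)))))

theorem Lq_apply (g : V n → ℝ) (z v : V n) : Lq v (fderiv ℝ g z) = conj (dr g z v) := by
  unfold Lq dr
  simp only [ContinuousLinearMap.comp_apply, ContinuousLinearMap.smul_apply,
    ContinuousLinearMap.sub_apply, ContinuousLinearMap.apply_apply, Complex.ofRealCLM_apply]
  show conj _ = _
  congr 1
  simp only [Complex.real_smul, smul_eq_mul]
  push_cast
  ring

theorem sym (h1 : T_LIN) (h2 : T_LVM) (h3 : T_FOZ) (h4 : T_BY1) (h5 : T_OAO) : T_SYM := by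
  intro n X _ _ ι A f I hS a k φ q σ R hR hφ hφc hφs hσ hq hqs hqb
  obtain ⟨C, hC⟩ := hqb
  obtain ⟨hO, hF, -, hR2, hO2, -⟩ := h5 n X ι A f I hS a
  obtain ⟨i1, i2, e1⟩ := h4 n X ι A f I hS a k φ q σ R hR hφ (hφc.fderiv ℝ)
    ((tsupport_fderiv_subset ℝ).trans hφs) hσ (fun s => (hq s).of_le (by norm_num)) hqs
    ⟨C, fun y s => ⟨(hC y s).1, (hC y s).2.1⟩⟩
  have hLv : ∀ s y, Lq (ek k : V n) (fderiv ℝ (fun y => q y s) y)
      = conj (dr (fun y => q y s) y (ek k)) := fun s y => Lq_apply _ _ _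
  have hd1 : ∀ s, ContDiff ℝ 1 (fderiv ℝ (fun y => q y s)) := fun s =>
    (hq s).fderiv_right (by norm_num)
  have hq1 : ∀ s, ContDiff ℝ 1 (fun y => conj (dr (fun y => q y s) y (ek k))) := by
    intro s
    have : (fun y => conj (dr (fun y => q y s) y (ek k)))
        = fun y => Lq (ek k : V n) (fderiv ℝ (fun y => q y s) y) := by
      funext y; exact (hLv s y).symm
    rw [this]
    exact (Lq (ek k : V n)).contDiff.comp (hd1 s)
  have hfd : ∀ s y, fderiv ℝ (fun y => conj (dr (fun y => q y s) y (ek k))) y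
      = (Lq (ek k : V n)).comp (fderiv ℝ (fderiv ℝ (fun y => q y s)) y) := by
    intro s y
    have : (fun y => conj (dr (fun y => q y s) y (ek k)))
        = fun y => Lq (ek k : V n) (fderiv ℝ (fun y => q y s) y) := by
      funext y; exact (hLv s y).symm
    rw [this]
    exact ((Lq (ek k : V n)).hasFDerivAt.comp y
      ((hd1 s).differentiable (by norm_num) y).hasFDerivAt).fderiv
  have hsup : ∀ y s, conj (dr (fun y => q y s) y (ek k)) ≠ 0 →
      y ∈ Metric.closedBall (0 : V n) R := by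
    intro y s hne
    by_contra hy
    refine hne ?_
    have h0 := fderiv_zero_of_supp (fun y => q y s) (Metric.closedBall 0 R)
      Metric.isClosed_closedBall (fun y => hqs y s) y hy
    show conj (dr (fun y => q y s) y (ek k)) = 0
    rw [← hLv, h0, map_zero]
  have hbnd : ∃ C : ℝ, ∀ y s, ‖conj (dr (fun y => q y s) y (ek k))‖ ≤ C ∧
      ‖fderiv ℝ (fun y => conj (dr (fun y => q y s) y (ek k))) y‖ ≤ C := by
    refine ⟨max C (‖(Lq (ek k : V n))‖ * C), fun y s => ⟨?_, ?_⟩⟩
    · refine le_trans ?_ (le_max_left _ _)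
      show ‖conj (dr (fun y => q y s) y (ek k))‖ ≤ C
      rw [Complex.norm_conj]
      refine (norm_dr_le _ _ _).trans ?_
      have hC0 : 0 ≤ C := (abs_nonneg _).trans (hC y s).1
      calc ‖fderiv ℝ (fun y => q y s) y‖ * ‖(ek k : V n)‖ ≤ C * 1 :=
            mul_le_mul (hC _ _).2.1 (ek_norm_le k) (norm_nonneg _) hC0
        _ = C := mul_one C
    · refine le_trans ?_ (le_max_right _ _)
      show ‖fderiv ℝ (fun y => conj (dr (fun y => q y s) y (ek k))) y‖ ≤ _
      rw [hfd]
      refine (ContinuousLinearMap.opNorm_comp_le _ _).trans ?_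
      exact mul_le_mul_of_nonneg_left (hC y s).2.2 (norm_nonneg _)
  obtain ⟨j1, j2, e2⟩ := h3 n X ι A f I hS a k (fun z => (φ z : ℂ))
    (fun y s => conj (dr (fun y => q y s) y (ek k))) σ R hR
    (Complex.ofRealCLM.contDiff.comp (hφ.of_le (by norm_num)))
    (hφc.comp_left (g := fun x : ℝ => (x : ℂ)) Complex.ofReal_zero)
    ((tsupport_comp_subset (g := fun x : ℝ => (x : ℂ)) Complex.ofReal_zero φ).trans hφs)
    hσ hq1 hsup hbnd
  have p1 : ∀ z ∈ Oa A f I a, (φ z : ℂ) * (‖(jac (FF A f a) z).det‖ ^ 2 : ℝ) *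
      dz (fun y => conj (dr (fun y => q y (σ z)) y (ek k))) (FF A f a z) (ek k)
      = ((φ z * ‖(jac (FF A f a) z).det‖ ^ 2 *
        lev (fun y => q y (σ z)) (FF A f a z) (ek k) : ℝ) : ℂ) := by
    intro z hz
    have hqc : ContDiff ℝ 2 (fun y => ((q y (σ z) : ℝ) : ℂ)) :=
      Complex.ofRealCLM.contDiff.comp (hq (σ z))
    have g1 : (fun y => conj (dr (fun y => q y (σ z)) y (ek k)))
        = fun y => dzb (fun y => ((q y (σ z) : ℝ) : ℂ)) y (ek k) := by
      funext y
      exact (((h1 n y).2.2.2.1 (fun y => q y (σ z)) (ek k)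
        ((hq (σ z)).differentiable (by norm_num) y)).2).symm
    rw [g1]
    obtain ⟨m1, -⟩ := h2 n (FF A f a z) (ek k)
    obtain ⟨m2, m3⟩ := m1 _ hqc.contDiffAt
    obtain ⟨m4, m5⟩ := (h2 n (FF A f a z) (ek k)).2 (fun y => q y (σ z)) (hq (σ z)).contDiffAt
    rw [← m2 k k]
    have m6 : ∑ i, ∑ j, (ek k : V n) i * conj ((ek k : V n) j) *
        dzb (fun x => dz (fun y => ((q y (σ z) : ℝ) : ℂ)) x (ek i)) (FF A f a z) (ek j)
        = dzb (fun x => dz (fun y => ((q y (σ z) : ℝ) : ℂ)) x (ek k)) (FF A f a z) (ek k) := by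
      rw [Finset.sum_eq_single k, Finset.sum_eq_single k]
      · simp [ek]
      · intro j _ hj; simp [ek, Pi.single_eq_of_ne hj]
      · intro h; exact absurd (Finset.mem_univ _) h
      · intro i _ hi
        refine Finset.sum_eq_zero fun j _ => ?_
        simp [ek, Pi.single_eq_of_ne hi]
      · intro h; exact absurd (Finset.mem_univ _) h
    rw [← m6, ← m3, ← m4]
    push_cast
    ring
  have p2 : ∀ z ∈ Oa A f I a, conj (dr (fun y => q y (σ z)) (FF A f a z) (ek k)) *
      conj (jac (FF A f a) z).det * dz (fun z => (φ z : ℂ)) z (cf (FF A f a) k z)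
      = dr φ z (cf (FF A f a) k z) * conj ((jac (FF A f a) z).det *
        dr (fun y => q y (σ z)) (FF A f a z) (ek k)) := by
    intro z hz
    rw [((h1 n z).2.2.2.1 φ (cf (FF A f a) k z) (hφ.differentiable (by norm_num) z)).1, map_mul]
    ring
  have q1 : IntegrableOn (fun z => ((φ z * ‖(jac (FF A f a) z).det‖ ^ 2 *
        lev (fun y => q y (σ z)) (FF A f a z) (ek k) : ℝ) : ℂ)) (Oa A f I a) :=
    (integrableOn_congr_fun p1 hO.measurableSet).1 j1
  have q2 : IntegrableOn (fun z => dr φ z (cf (FF A f a) k z) *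
      conj ((jac (FF A f a) z).det * dr (fun y => q y (σ z)) (FF A f a z) (ek k)))
        (Oa A f I a) :=
    (integrableOn_congr_fun p2 hO.measurableSet).1 j2
  have q3 : IntegrableOn (fun z => φ z * ‖(jac (FF A f a) z).det‖ ^ 2 *
        lev (fun y => q y (σ z)) (FF A f a z) (ek k)) (Oa A f I a) := by
    exact Complex.reCLM.integrable_comp q1
  refine ⟨i1, q3, ?_⟩
  rw [setIntegral_congr_fun hO.measurableSet p1, setIntegral_congr_fun hO.measurableSet p2] at e2
  have r1 := congrArg Complex.re e2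
  rw [Complex.neg_re] at r1
  rw [e1]
  have s1 : (∫ z in Oa A f I a, ((φ z * ‖(jac (FF A f a) z).det‖ ^ 2 *
        lev (fun y => q y (σ z)) (FF A f a z) (ek k) : ℝ) : ℂ)).re
        = ∫ z in Oa A f I a, φ z * ‖(jac (FF A f a) z).det‖ ^ 2 *
        lev (fun y => q y (σ z)) (FF A f a z) (ek k) := by
    exact (Complex.reCLM.integral_comp_comm q1).symm
  have s2 : (∫ z in Oa A f I a, dr φ z (cf (FF A f a) k z) *
      conj ((jac (FF A f a) z).det * dr (fun y => q y (σ z)) (FF A f a z) (ek k))).re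
      = ∫ z in Oa A f I a, (dr φ z (cf (FF A f a) k z) *
      conj ((jac (FF A f a) z).det * dr (fun y => q y (σ z)) (FF A f a z) (ek k))).re := by
    exact (Complex.reCLM.integral_comp_comm q2).symm
  rw [s1, s2] at r1
  exact r1.symm

end Pool.Agent.H27.VG
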